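import Pool.Agent.R786.BP.Univ

/-!
# MP_ce9419_lc: pp-constructing `H` from `C × H`

`C` is any digraph in which every finite set of vertices has a common in-neighbour and a common
out-neighbour, for example `(ℚ, <)`.  The digraph `C × H` pp-constructs the finite digraph `H` in
the following two cases.

* The core of `H` has at least two vertices, no sources or sinks, and only essentially unary
  polymorphisms (then `C × H` pp-constructs every finite digraph).
* `H` is homomorphically equivalent to a digraph whose edge relation is rectangular on the set of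
  vertices that are both the end and the start of arbitrarily long paths.
-/

namespace Pool.Agent.Results.MP_ce9419_lc.ProductConstructs

open Pool.Agent.R786.BP

theorem q_ext : Ext (fun p q : ℚ => p < q) := by
  intro U
  obtain ⟨d, hd⟩ := U.bddBelow
  obtain ⟨e, he⟩ := U.bddAbove
  refine ⟨⟨d - 1, fun u hu => ?_⟩, ⟨e + 1, fun u hu => ?_⟩⟩
  · have : d ≤ u := hd hu
    linarith
  · have : u ≤ e := he hu
    linarith

theorem ppc_target {A B B' : Type} {E : A → A → Prop} {K : B → B → Prop} {K' : B' → B' → Prop}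
    {a : B → B'} {b : B' → B} (ha : IsHom K K' a) (hb : IsHom K' K b) (h : PPConstructs E K) :
    PPConstructs E K' := by
  obtain ⟨ι, h1, h2, R, hR, ⟨g, hg⟩, ⟨g', hg'⟩⟩ := h
  exact ⟨ι, h1, h2, R, hR, ⟨fun u => a (g u), fun u v huv => ha _ _ (hg _ _ huv)⟩,
    ⟨fun k => g' (b k), fun x y hxy => hg' _ _ (hb _ _ hxy)⟩⟩

theorem result :
    (∀ (C : Type) (E : C → C → Prop), Ext E →
      ∀ (H H0 : Type) (F : H → H → Prop) (F0 : H0 → H0 → Prop) (a : H → H0) (b : H0 → H),
      Finite H → Finite H0 → IsHom F F0 a → IsHom F0 F b →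
      (IsCore F0 → Smooth F0 → EssUnary F0 → Nontrivial H0 →
        ∀ (B : Type) (K : B → B → Prop), Finite B → Nonempty B → PPConstructs (prodE E F) K) ∧
      (InnerRect F0 → PPConstructs (prodE E F) F)) ∧
    Ext (fun p q : ℚ => p < q) := by
  refine ⟨?_, q_ext⟩
  intro C E hE H H0 F F0 a b hH hH0 ha hb
  have ha' : IsHom (prodE E F) (prodE E F0) (fun p => (p.1, a p.2)) :=
    fun p q h => ⟨h.1, ha _ _ h.2⟩
  have hb' : IsHom (prodE E F0) (prodE E F) (fun p => (p.1, b p.2)) :=
    fun p q h => ⟨h.1, hb _ _ h.2⟩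
  refine ⟨fun hc hs he hn B K hB hB' => ?_, fun hF => ?_⟩
  · exact ppc_transfer hb' ha' (ppc_lift hE hc hs he (ess_constructs hc he K))
  · obtain ⟨M, f, hf⟩ := pow_hom hF
    exact ppc_target hb ha (ppc_transfer hb' ha' (ppc_of_pow hE hf))

end Pool.Agent.Results.MP_ce9419_lc.ProductConstructs
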